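import Mathlib

/-!
# MP_61ce55_lc: no small portfolios for ordered norms on unrelated machines

For all constants `α ≥ 1`, `C > 0` and `k` there is an instance of scheduling on `d` unrelated
machines such that every `α`-approximate portfolio for the ordered norms has more than
`C (log d)^k` elements.
-/

namespace Pool.Agent.Results.MP_61ce55_lc.NoPolylogPortfolio

open Finset

/-- The load of machine `i` under the schedule `s` that sends job `j` to machine `s j`, when job `j`
has processing time `p i j` on machine `i`. -/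
def load {d n : ℕ} (p : Fin d → Fin n → ℝ) (s : Fin n → Fin d) : Fin d → ℝ :=
  fun i => ∑ j ∈ univ.filter (fun j => s j = i), p i j

/-- The set of load vectors of all feasible schedules. -/
def loads {d n : ℕ} (p : Fin d → Fin n → ℝ) : Set (Fin d → ℝ) := Set.range (load p)

/-- The coordinates of `x` sorted in non-increasing order. -/
noncomputable def decr {d : ℕ} (x : Fin d → ℝ) : Fin d → ℝ := x ∘ Tuple.sort (fun i => -x i)

/-- The ordered norm with weights `w` of a nonnegative vector `x`. -/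
noncomputable def ordNorm {d : ℕ} (w x : Fin d → ℝ) : ℝ := ∑ k, w k * decr x k

/-- Nonzero, nonincreasing, nonnegative weight vectors. -/
def IsWeight {d : ℕ} (w : Fin d → ℝ) : Prop := w ≠ 0 ∧ Antitone w ∧ ∀ k, 0 ≤ w k

/-- `X` is an `α`-approximate portfolio of the finite set `D` for the class of ordered norms. -/
def IsPortfolio {d : ℕ} (α : ℝ) (D X : Set (Fin d → ℝ)) : Prop :=
  X ⊆ D ∧ ∀ w : Fin d → ℝ, IsWeight w → ∃ x ∈ X, ∀ y ∈ D, ordNorm w x ≤ α * ordNorm w y

/-! ### Sorted sums -/

lemma decr_antitone {d : ℕ} (x : Fin d → ℝ) : Antitone (decr x) := by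
  intro i j hij
  have := Tuple.monotone_sort (fun i => -x i) hij
  simp only [Function.comp] at this
  simp only [decr, Function.comp]
  linarith

/-- The sum of the `s` largest coordinates. -/
noncomputable def top {d : ℕ} (s : ℕ) (x : Fin d → ℝ) : ℝ :=
  ∑ k : Fin d, if (k : ℕ) < s then decr x k else 0

lemma sum_le_top {d : ℕ} (x : Fin d → ℝ) (hx : ∀ i, 0 ≤ x i) (s : ℕ) (B : Finset (Fin d))
    (hB : B.card ≤ s) : ∑ i ∈ B, x i ≤ top s x := by
  classical
  set σ := Tuple.sort (fun i => -x i) with hσ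
  -- weights
  let w : Fin d → ℝ := fun k => if (k : ℕ) < s then 1 else 0
  have hw : Antitone w := by
    intro i j hij
    simp only [w]
    have : (i : ℕ) ≤ j := hij
    by_cases h1 : (j : ℕ) < s
    · rw [if_pos h1, if_pos (lt_of_le_of_lt this h1)]
    · rw [if_neg h1]; split_ifs <;> norm_num
  have htop : top s x = ∑ k, w k * decr x k := by
    unfold top
    refine Finset.sum_congr rfl fun k _ => ?_
    simp only [w]
    split_ifs <;> simp
  have hBd : B.card ≤ d := by simpa using Finset.card_le_univ B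
  -- bijection from first `card B` positions onto `B`
  let A : Finset (Fin d) := univ.filter (fun k : Fin d => (k : ℕ) < B.card)
  have hA : A.card = B.card := by
    have : A = (Finset.univ : Finset (Fin B.card)).map (Fin.castLEEmb hBd) := by
      ext k
      simp only [A, Finset.mem_filter, Finset.mem_univ, true_and, Finset.mem_map,
        Fin.castLEEmb_apply]
      constructor
      · intro hk
        exact ⟨⟨k, hk⟩, by ext; simp⟩
      · rintro ⟨a, rfl⟩
        simp
    rw [this]; simp
  have e : {k // k ∈ A} ≃ {k // k ∈ B} := Finset.equivOfCardEq hA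
  let π : Equiv.Perm (Fin d) := Equiv.extendSubtype e
  have hπ : ∀ k, k ∈ A → π k ∈ B := fun k hk => by
    have := Equiv.extendSubtype_mem e k hk
    exact this
  have hrearr : ∑ k, w k * x (π k) ≤ ∑ k, w k * decr x k := by
    have hmv : Monovary w (decr x) := by
      intro i j hij
      by_contra hcon
      have h1 : ¬ (i ≤ j) := by
        intro h
        exact absurd (decr_antitone x h) (not_le.mpr hij)
      have h2 : j ≤ i := le_of_not_ge h1
      exact hcon (hw h2)
    have := Monovary.sum_mul_comp_perm_le_sum_mul (σ := π.trans σ.symm) hmv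
    refine le_trans (le_of_eq ?_) this
    refine Finset.sum_congr rfl fun k _ => ?_
    simp [decr, σ]
  have himg : A.image π = B := by
    apply Finset.eq_of_subset_of_card_le
    · intro y hy
      obtain ⟨k, hk, rfl⟩ := Finset.mem_image.1 hy
      exact hπ k hk
    · rw [Finset.card_image_of_injective _ π.injective, hA]
  calc ∑ i ∈ B, x i = ∑ i ∈ A.image π, x i := by rw [himg]
    _ = ∑ k ∈ A, x (π k) := Finset.sum_image (fun a _ b _ hab => π.injective hab)
    _ ≤ ∑ k, w k * x (π k) := by
        rw [show (∑ k ∈ A, x (π k)) = ∑ k : Fin d, if (k : ℕ) < B.card then x (π k) else 0 by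
          rw [Finset.sum_filter]]
        refine Finset.sum_le_sum fun k _ => ?_
        simp only [w]
        split_ifs with h1 h2
        · simp
        · omega
        · simpa using hx _
        · simp
    _ ≤ top s x := by rw [htop]; exact hrearr

lemma top_le {d : ℕ} {ι : Type*} (T : Finset ι) (x : Fin d → ℝ) (s : ℕ) (c : ι → ℝ)
    (hc : ∀ t ∈ T, 0 ≤ c t) (B : ι → Finset (Fin d))
    (hx : ∀ i, x i ≤ ∑ t ∈ T, if i ∈ B t then c t else 0) :
    top s x ≤ ∑ t ∈ T, c t * (min s (B t).card : ℕ) := by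
  classical
  unfold top
  have h1 : ∀ k : Fin d, (if (k : ℕ) < s then decr x k else 0) ≤
      ∑ t ∈ T, if (k : ℕ) < s ∧ Tuple.sort (fun i => -x i) k ∈ B t then c t else 0 := by
    intro k
    split_ifs with h
    · refine le_trans (hx _) (le_of_eq ?_)
      refine Finset.sum_congr rfl fun t _ => ?_
      simp [h]
    · refine Finset.sum_nonneg fun t ht => ?_
      split_ifs
      · exact hc t ht
      · exact le_rfl
  refine le_trans (Finset.sum_le_sum fun k _ => h1 k) ?_
  rw [Finset.sum_comm]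
  refine Finset.sum_le_sum fun t ht => ?_
  rw [← Finset.sum_filter, Finset.sum_const, nsmul_eq_mul, mul_comm]
  refine mul_le_mul_of_nonneg_left ?_ (hc t ht)
  norm_cast
  refine le_min ?_ ?_
  · calc _ ≤ (univ.filter (fun k : Fin d => (k : ℕ) < s)).card := by
          refine Finset.card_le_card fun k hk => ?_
          simp only [Finset.mem_filter, Finset.mem_univ, true_and] at hk ⊢
          exact hk.1
      _ ≤ (Finset.range s).card := by
          refine Finset.card_le_card_of_injOn (fun k => (k : ℕ)) ?_ ?_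
          · intro k hk
            simpa using hk
          · intro a _ b _ hab
            exact Fin.ext hab
      _ = s := by simp
  · refine Finset.card_le_card_of_injOn (fun k => Tuple.sort (fun i => -x i) k) ?_ ?_
    · intro k hk
      simp only [Finset.coe_filter, Finset.mem_univ, true_and, Set.mem_ofPred_eq] at hk
      exact hk.2
    · intro a _ b _ hab
      exact (Tuple.sort (fun i => -x i)).injective hab


/-! ### The instance, on abstract index types -/

/-- Number of the group `(t, b)`. -/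
def idx {h : ℕ} (g : Fin h × Bool) : ℕ := 2 * (g.1 : ℕ) + g.2.toNat

/-- Number of machines in the group. -/
def sz (q : ℕ) {h : ℕ} (g : Fin h × Bool) : ℕ := q ^ (2 * idx g + 1)

/-- Machines. -/
abbrev Mach (h q : ℕ) : Type := (g : Fin h × Bool) × Fin (sz q g)

/-- Jobs. -/
abbrev Job (h q : ℕ) : Type := (t : Fin h) × (Fin (sz q (t, false)) × Fin (sz q (t, true)))

/-- The good machine of a job in the group `(t, b)`. -/
def tgt {h q : ℕ} (j : Job h q) (b : Bool) : Mach h q :=
  match b with
  | false => ⟨(j.1, false), j.2.1⟩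
  | true => ⟨(j.1, true), j.2.2⟩

lemma tgt_fst {h q : ℕ} (j : Job h q) (b : Bool) : (tgt j b).1 = (j.1, b) := by
  cases b <;> rfl

/-- The processing time on the good machine. -/
noncomputable def cst (q : ℕ) {h : ℕ} (t : Fin h) (b : Bool) : ℝ :=
  ((q : ℝ)⁻¹) ^ (idx (t, b) + 1) / (sz q (t, !b) : ℝ)

/-- Processing times. -/
noncomputable def pt {h q : ℕ} (m : Mach h q) (j : Job h q) : ℝ :=
  if m = tgt j m.1.2 then cst q j.1 m.1.2 else (q : ℝ) ^ (2 * h)

/-- Load vector on abstract index types. -/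
noncomputable def gload {h q : ℕ} (S : Job h q → Mach h q) (m : Mach h q) : ℝ :=
  ∑ j, if S j = m then pt m j else 0

lemma cst_nonneg (q : ℕ) {h : ℕ} (t : Fin h) (b : Bool) : 0 ≤ cst q t b := by
  unfold cst; positivity

lemma pt_nonneg {h q : ℕ} (m : Mach h q) (j : Job h q) : 0 ≤ pt m j := by
  unfold pt
  split_ifs
  · exact cst_nonneg _ _ _
  · positivity

lemma gload_nonneg {h q : ℕ} (S : Job h q → Mach h q) (m : Mach h q) : 0 ≤ gload S m := by
  unfold gload
  refine Finset.sum_nonneg fun j _ => ?_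
  split_ifs
  · exact pt_nonneg _ _
  · exact le_rfl

/-- The job with good machines `u` (in group `(t, b)`) and `v` (in group `(t, !b)`). -/
def mk {h q : ℕ} (t : Fin h) : (b : Bool) → Fin (sz q (t, b)) → Fin (sz q (t, !b)) → Job h q
  | false, u, v => ⟨t, (u, v)⟩
  | true, u, v => ⟨t, (v, u)⟩

/-- The good schedule for the norm `x`. -/
def good {h q : ℕ} (x : Fin h → Bool) (j : Job h q) : Mach h q := tgt j (!x j.1)

lemma tgt_eq {h q : ℕ} (j : Job h q) (b' : Bool) (t : Fin h) (b : Bool) (u : Fin (sz q (t, b)))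
    (hj : tgt j b' = ⟨(t, b), u⟩) : b' = b ∧ ∃ v, j = mk t b u v := by
  obtain ⟨t', u', v'⟩ := j
  have h1 := congrArg (fun m : Mach h q => m.1) hj
  simp only [tgt_fst, Prod.mk.injEq] at h1
  obtain ⟨h1, h2⟩ := h1
  subst h1 h2
  refine ⟨rfl, ?_⟩
  cases b' with
  | false =>
    simp only [tgt, Sigma.mk.injEq, heq_eq_eq, true_and] at hj
    exact ⟨v', by rw [← hj]; rfl⟩
  | true =>
    simp only [tgt, Sigma.mk.injEq, heq_eq_eq, true_and] at hj
    exact ⟨u', by rw [← hj]; rfl⟩

lemma gload_good_le {h q : ℕ} (hq : 0 < q) (x : Fin h → Bool) (m : Mach h q) :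
    gload (good x) m ≤ if m.1.2 = !x m.1.1 then ((q : ℝ)⁻¹) ^ (idx m.1 + 1) else 0 := by
  classical
  obtain ⟨⟨t, b⟩, u⟩ := m
  have key : ∀ j : Job h q, good x j = ⟨(t, b), u⟩ → b = (!x t) ∧ ∃ v, j = mk t b u v := by
    intro j hj
    obtain ⟨h1, h2⟩ := tgt_eq j _ t b u hj
    refine ⟨?_, h2⟩
    have h3 : j.1 = t := by
      have := congrArg (fun m : Mach h q => m.1.1) hj
      simpa [good, tgt_fst] using this
    rw [← h1, h3]
  have hterm : ∀ j : Job h q, (if good x j = ⟨(t, b), u⟩ then pt (⟨(t, b), u⟩ : Mach h q) j else 0)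
      = if good x j = ⟨(t, b), u⟩ then cst q t b else 0 := by
    intro j
    split_ifs with hj
    · obtain ⟨h1, h2⟩ := tgt_eq j _ t b u hj
      have h3 : j.1 = t := by
        have := congrArg (fun m : Mach h q => m.1.1) hj
        simpa [good, tgt_fst] using this
      unfold pt
      unfold good at hj
      rw [h1] at hj
      rw [if_pos hj.symm, h3]
    · rfl
  unfold gload
  rw [Finset.sum_congr rfl fun j _ => hterm j, ← Finset.sum_filter, Finset.sum_const,
    nsmul_eq_mul]
  by_cases hb : b = !x t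
  · rw [if_pos hb]
    have hcard : (univ.filter fun j : Job h q => good x j = ⟨(t, b), u⟩).card ≤ sz q (t, !b) := by
      calc _ ≤ ((univ : Finset (Fin (sz q (t, !b)))).image (fun v => mk t b u v)).card := by
            refine Finset.card_le_card fun j hj => ?_
            simp only [Finset.mem_filter, Finset.mem_univ, true_and] at hj
            obtain ⟨-, v, rfl⟩ := key j hj
            exact Finset.mem_image_of_mem _ (Finset.mem_univ v)
        _ ≤ (univ : Finset (Fin (sz q (t, !b)))).card := Finset.card_image_le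
        _ = sz q (t, !b) := by simp
    have hpos : (0 : ℝ) < sz q (t, !b) := by
      unfold sz; positivity
    calc _ ≤ (sz q (t, !b) : ℝ) * cst q t b := by
          refine mul_le_mul_of_nonneg_right ?_ (cst_nonneg _ _ _)
          exact_mod_cast hcard
      _ = _ := by
          unfold cst
          field_simp
  · rw [if_neg hb]
    have : (univ.filter fun j : Job h q => good x j = ⟨(t, b), u⟩) = ∅ := by
      refine Finset.filter_eq_empty_iff.2 fun j _ hj => hb (key j hj).1
    rw [this]; simp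

/-- Sum of the loads in a set of machines. -/
lemma sum_gload {h q : ℕ} (S : Job h q → Mach h q) (B : Finset (Mach h q)) :
    ∑ m ∈ B, gload S m = ∑ j, if S j ∈ B then pt (S j) j else 0 := by
  classical
  unfold gload
  rw [Finset.sum_comm]
  refine Finset.sum_congr rfl fun j _ => ?_
  rw [Finset.sum_ite_eq]

/-- The machines of a group. -/
def grp {h q : ℕ} (g : Fin h × Bool) : Finset (Mach h q) := univ.filter (fun m => m.1 = g)

lemma card_grp {h q : ℕ} (g : Fin h × Bool) : (grp g : Finset (Mach h q)).card = sz q g := by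
  have : (grp g : Finset (Mach h q)) = (univ : Finset (Fin (sz q g))).map
      ⟨fun u => (⟨g, u⟩ : Mach h q), fun a b hab => by simpa using hab⟩ := by
    ext m
    obtain ⟨g', u⟩ := m
    simp only [grp, Finset.mem_filter, Finset.mem_univ, true_and, Finset.mem_map]
    constructor
    · rintro rfl
      exact ⟨u, rfl⟩
    · rintro ⟨a, ha⟩
      exact (congrArg (fun m : Mach h q => m.1) ha).symm
  rw [this]; simp

/-- If all jobs of class `t` sit on good machines, the weighted group loads sum up to at least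
one. -/
lemma group_sum {h q : ℕ} (hq : 0 < q) (S : Job h q → Mach h q) (t : Fin h)
    (hS : ∀ j : Job h q, j.1 = t → S j = tgt j false ∨ S j = tgt j true) :
    1 ≤ ∑ b : Bool, ((q : ℝ)⁻¹) ^ idx (t, b) * ∑ m ∈ grp (t, b), gload S m := by
  classical
  have hq' : (0 : ℝ) < q := by exact_mod_cast hq
  set N : ℝ := (sz q (t, false) : ℝ) * (sz q (t, true) : ℝ) with hN
  have hNpos : 0 < N := by
    simp only [hN, sz]; positivity
  -- each term
  have hb : ∀ b : Bool, ∑ w : Fin (sz q (t, false)) × Fin (sz q (t, true)),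
      (if S ⟨t, w⟩ = tgt ⟨t, w⟩ b then 1 / N else 0) ≤
      ((q : ℝ)⁻¹) ^ idx (t, b) * ∑ m ∈ grp (t, b), gload S m := by
    intro b
    rw [sum_gload, Fintype.sum_sigma]
    have h1 : ∑ w : Fin (sz q (t, false)) × Fin (sz q (t, true)),
        (if S ⟨t, w⟩ ∈ (grp (t, b) : Finset (Mach h q)) then pt (S ⟨t, w⟩) ⟨t, w⟩ else 0) ≤
        ∑ t' : Fin h, ∑ w : Fin (sz q (t', false)) × Fin (sz q (t', true)),
        (if S ⟨t', w⟩ ∈ (grp (t, b) : Finset (Mach h q)) then pt (S ⟨t', w⟩) ⟨t', w⟩ else 0) := by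
      refine Finset.single_le_sum (f := fun t' : Fin h =>
        ∑ w : Fin (sz q (t', false)) × Fin (sz q (t', true)),
        (if S ⟨t', w⟩ ∈ (grp (t, b) : Finset (Mach h q)) then pt (S ⟨t', w⟩) ⟨t', w⟩ else 0))
        (fun t' _ => Finset.sum_nonneg fun w _ => ?_) (Finset.mem_univ t)
      split_ifs
      · exact pt_nonneg _ _
      · exact le_rfl
    refine le_trans ?_ (mul_le_mul_of_nonneg_left h1 (by positivity))
    rw [Finset.mul_sum]
    refine Finset.sum_le_sum fun w _ => ?_
    by_cases hw : S ⟨t, w⟩ = tgt ⟨t, w⟩ b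
    · have hm : S ⟨t, w⟩ ∈ (grp (t, b) : Finset (Mach h q)) := by
        rw [hw]; simp [grp, tgt_fst]
      rw [if_pos hw, if_pos hm, hw]
      have hpt : pt (tgt (⟨t, w⟩ : Job h q) b) ⟨t, w⟩ = cst q t b := by
        unfold pt
        have : (tgt (⟨t, w⟩ : Job h q) b).1.2 = b := by rw [tgt_fst]
        rw [this, if_pos rfl]
      rw [hpt]
      unfold cst
      have hszb : ((sz q (t, b) : ℕ) : ℝ) = (q : ℝ) ^ (2 * idx (t, b) + 1) := by
        simp [sz]
      have hprod : N = (sz q (t, b) : ℝ) * (sz q (t, !b) : ℝ) := by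
        rw [hN]; cases b <;> simp [mul_comm]
      rw [hprod, hszb]
      have hne : (sz q (t, !b) : ℝ) ≠ 0 := by unfold sz; positivity
      refine le_of_eq ?_
      rw [inv_pow, inv_pow]
      field_simp
      ring
    · rw [if_neg hw]
      refine mul_nonneg (by positivity) ?_
      split_ifs
      · exact pt_nonneg _ _
      · exact le_rfl
  refine le_trans ?_ (Finset.sum_le_sum fun b _ => hb b)
  rw [Finset.sum_comm]
  have : ∀ w : Fin (sz q (t, false)) × Fin (sz q (t, true)), 1 / N ≤
      ∑ b : Bool, (if S ⟨t, w⟩ = tgt ⟨t, w⟩ b then 1 / N else 0) := by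
    intro w
    have hnn : 0 ≤ 1 / N := by positivity
    rw [Fintype.sum_bool]
    rcases hS ⟨t, w⟩ rfl with h1 | h1
    · rw [if_pos h1]
      have : 0 ≤ (if S ⟨t, w⟩ = tgt ⟨t, w⟩ true then 1 / N else 0) := by
        split_ifs <;> simp [hNpos.le]
      linarith
    · rw [if_pos h1]
      have : 0 ≤ (if S ⟨t, w⟩ = tgt ⟨t, w⟩ false then 1 / N else 0) := by
        split_ifs <;> simp [hNpos.le]
      linarith
  refine le_trans (le_of_eq ?_) (Finset.sum_le_sum fun w _ => this w)
  rw [Finset.sum_const, Finset.card_univ, Fintype.card_prod, Fintype.card_fin, Fintype.card_fin,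
    nsmul_eq_mul]
  push_cast
  rw [← hN]
  field_simp


/-! ### Transport to `Fin d` and `Fin n` -/

/-- Number of machines. -/
def dd (h q : ℕ) : ℕ := Fintype.card (Mach h q)

/-- Number of jobs. -/
def nn (h q : ℕ) : ℕ := Fintype.card (Job h q)

/-- Numbering of the machines. -/
noncomputable def eM (h q : ℕ) : Mach h q ≃ Fin (dd h q) := Fintype.equivFin _

/-- Numbering of the jobs. -/
noncomputable def eJ (h q : ℕ) : Job h q ≃ Fin (nn h q) := Fintype.equivFin _

/-- Processing times on `Fin d`, `Fin n`. -/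
noncomputable def ptF (h q : ℕ) (i : Fin (dd h q)) (j : Fin (nn h q)) : ℝ :=
  pt ((eM h q).symm i) ((eJ h q).symm j)

lemma load_eq {h q : ℕ} (s : Fin (nn h q) → Fin (dd h q)) (i : Fin (dd h q)) :
    load (ptF h q) s i = gload (fun j => (eM h q).symm (s (eJ h q j))) ((eM h q).symm i) := by
  classical
  unfold load gload
  rw [Finset.sum_filter]
  refine Fintype.sum_equiv (eJ h q).symm _ _ fun j => ?_
  simp only [Equiv.apply_symm_apply, EmbeddingLike.apply_eq_iff_eq, ptF]

/-- The weights of the norm `x`. -/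
noncomputable def wt {h : ℕ} (q : ℕ) (x : Fin h → Bool) (k : Fin (dd h q)) : ℝ :=
  ∑ t : Fin h, if (k : ℕ) < sz q (t, x t) then ((q : ℝ)⁻¹) ^ idx (t, x t) else 0

lemma wt_nonneg {h : ℕ} (q : ℕ) (x : Fin h → Bool) (k : Fin (dd h q)) : 0 ≤ wt q x k := by
  unfold wt
  refine Finset.sum_nonneg fun t _ => ?_
  split_ifs
  · positivity
  · exact le_rfl

lemma wt_antitone {h : ℕ} (q : ℕ) (x : Fin h → Bool) : Antitone (wt q x) := by
  intro i j hij
  unfold wt
  refine Finset.sum_le_sum fun t _ => ?_
  have hij' : (i : ℕ) ≤ j := hij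
  by_cases h1 : (j : ℕ) < sz q (t, x t)
  · rw [if_pos h1, if_pos (lt_of_le_of_lt hij' h1)]
  · rw [if_neg h1]
    split_ifs
    · positivity
    · exact le_rfl

lemma ordNorm_wt {h : ℕ} (q : ℕ) (x : Fin h → Bool) (y : Fin (dd h q) → ℝ) :
    ordNorm (wt q x) y = ∑ t : Fin h, ((q : ℝ)⁻¹) ^ idx (t, x t) * top (sz q (t, x t)) y := by
  unfold ordNorm wt top
  simp_rw [Finset.sum_mul, Finset.mul_sum]
  rw [Finset.sum_comm]
  refine Finset.sum_congr rfl fun t _ => Finset.sum_congr rfl fun k _ => ?_
  split_ifs <;> simp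

lemma card_image_grp {h q : ℕ} (g : Fin h × Bool) :
    ((grp g : Finset (Mach h q)).map (eM h q).toEmbedding).card = sz q g := by
  rw [Finset.card_map, card_grp]

lemma load_nonneg {h q : ℕ} (s : Fin (nn h q) → Fin (dd h q)) (i : Fin (dd h q)) :
    0 ≤ load (ptF h q) s i := by
  rw [load_eq]; exact gload_nonneg _ _

/-- Lower bound: for every schedule the two terms of class `t` add up to at least one. -/
lemma one_le {h q : ℕ} (hq : 0 < q) (s : Fin (nn h q) → Fin (dd h q)) (t : Fin h) :
    1 ≤ ∑ b : Bool, ((q : ℝ)⁻¹) ^ idx (t, b) * top (sz q (t, b)) (load (ptF h q) s) := by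
  classical
  have hq' : (0 : ℝ) < q := by exact_mod_cast hq
  set S : Job h q → Mach h q := fun j => (eM h q).symm (s (eJ h q j)) with hSdef
  by_cases hS : ∀ j : Job h q, j.1 = t → S j = tgt j false ∨ S j = tgt j true
  · refine le_trans (group_sum hq S t hS) (Finset.sum_le_sum fun b _ => ?_)
    refine mul_le_mul_of_nonneg_left ?_ (by positivity)
    refine le_trans (le_of_eq ?_) (sum_le_top (load (ptF h q) s) (load_nonneg s) (sz q (t, b))
      ((grp (t, b) : Finset (Mach h q)).map (eM h q).toEmbedding) (card_image_grp _).le)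
    rw [Finset.sum_map]
    refine Finset.sum_congr rfl fun m _ => ?_
    rw [load_eq]
    simp [hSdef]
  · push Not at hS
    obtain ⟨j, hjt, hj1, hj2⟩ := hS
    have hbad : (q : ℝ) ^ (2 * h) ≤ load (ptF h q) s (s (eJ h q j)) := by
      rw [load_eq]
      have h1 : pt (S j) j = (q : ℝ) ^ (2 * h) := by
        unfold pt
        rw [if_neg]
        intro hcon
        cases hb : (S j).1.2 with
        | false => rw [hb] at hcon; exact hj1 hcon
        | true => rw [hb] at hcon; exact hj2 hcon
      calc (q : ℝ) ^ (2 * h) = if S j = S j then pt (S j) j else 0 := by rw [if_pos rfl, h1]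
        _ ≤ gload S (S j) := by
            unfold gload
            refine Finset.single_le_sum (f := fun j' => if S j' = S j then pt (S j) j' else 0)
              (fun j' _ => ?_) (Finset.mem_univ j)
            split_ifs
            · exact pt_nonneg _ _
            · exact le_rfl
    have hterm : ∀ b : Bool, 1 ≤ ((q : ℝ)⁻¹) ^ idx (t, b) *
        top (sz q (t, b)) (load (ptF h q) s) := by
      intro b
      have h2 : load (ptF h q) s (s (eJ h q j)) ≤ top (sz q (t, b)) (load (ptF h q) s) := by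
        have := sum_le_top (load (ptF h q) s) (load_nonneg s) (sz q (t, b)) {s (eJ h q j)}
          (by
            rw [Finset.card_singleton]
            unfold sz
            exact Nat.one_le_pow _ _ hq)
        simpa using this
      have h3 : 1 ≤ ((q : ℝ)⁻¹) ^ idx (t, b) * (q : ℝ) ^ (2 * h) := by
        have hidx : idx (t, b) ≤ 2 * h := by
          unfold idx
          have := t.2
          have hb : b.toNat ≤ 1 := Bool.toNat_le b
          simp only
          omega
        rw [inv_pow, inv_mul_eq_div, le_div_iff₀ (by positivity), one_mul]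
        exact pow_le_pow_right₀ (by exact_mod_cast hq) hidx
      refine le_trans h3 (mul_le_mul_of_nonneg_left (le_trans hbad h2) (by positivity))
    rw [Fintype.sum_bool]
    linarith [hterm true, hterm false]

/-- The good schedule on `Fin`. -/
noncomputable def goodF {h q : ℕ} (x : Fin h → Bool) (j : Fin (nn h q)) : Fin (dd h q) :=
  eM h q (good x ((eJ h q).symm j))

lemma pow_bound {q : ℕ} (hq : 1 ≤ q) {h : ℕ} (g g' : Fin h × Bool) (hg : idx g ≠ idx g') :
    ((q : ℝ)⁻¹) ^ idx g * (((q : ℝ)⁻¹) ^ (idx g' + 1) * ((min (sz q g) (sz q g') : ℕ) : ℝ)) ≤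
      (q : ℝ)⁻¹ := by
  have hq' : (1 : ℝ) ≤ q := by exact_mod_cast hq
  have hq0 : (0 : ℝ) < q := by linarith
  have hr1 : (q : ℝ)⁻¹ ≤ 1 := inv_le_one_of_one_le₀ hq'
  rcases lt_or_gt_of_ne hg with hlt | hlt
  · have h1 : ((min (sz q g) (sz q g') : ℕ) : ℝ) ≤ (q : ℝ) ^ (2 * idx g + 1) := by
      have := min_le_left (sz q g) (sz q g')
      calc ((min (sz q g) (sz q g') : ℕ) : ℝ) ≤ ((sz q g : ℕ) : ℝ) := by exact_mod_cast this
        _ = _ := by simp [sz]
    obtain ⟨e, he⟩ : ∃ e, idx g' = idx g + 1 + e := ⟨idx g' - idx g - 1, by omega⟩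
    calc _ ≤ ((q : ℝ)⁻¹) ^ idx g * (((q : ℝ)⁻¹) ^ (idx g' + 1) * (q : ℝ) ^ (2 * idx g + 1)) := by
          gcongr
      _ = ((q : ℝ)⁻¹) ^ (e + 1) := by
          rw [he, inv_pow, inv_pow, inv_pow]
          field_simp
          ring
      _ ≤ ((q : ℝ)⁻¹) ^ 1 := pow_le_pow_of_le_one (by positivity) hr1 (by omega)
      _ = _ := pow_one _
  · have h1 : ((min (sz q g) (sz q g') : ℕ) : ℝ) ≤ (q : ℝ) ^ (2 * idx g' + 1) := by
      have := min_le_right (sz q g) (sz q g')
      calc ((min (sz q g) (sz q g') : ℕ) : ℝ) ≤ ((sz q g' : ℕ) : ℝ) := by exact_mod_cast this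
        _ = _ := by simp [sz]
    obtain ⟨e, he⟩ : ∃ e, idx g = idx g' + 1 + e := ⟨idx g - idx g' - 1, by omega⟩
    calc _ ≤ ((q : ℝ)⁻¹) ^ idx g * (((q : ℝ)⁻¹) ^ (idx g' + 1) * (q : ℝ) ^ (2 * idx g' + 1)) := by
          gcongr
      _ = ((q : ℝ)⁻¹) ^ (e + 1) := by
          rw [he, inv_pow, inv_pow, inv_pow]
          field_simp
          ring
      _ ≤ ((q : ℝ)⁻¹) ^ 1 := pow_le_pow_of_le_one (by positivity) hr1 (by omega)
      _ = _ := pow_one _

lemma good_cost {h q : ℕ} (hq : 1 ≤ q) (x : Fin h → Bool) :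
    ordNorm (wt q x) (load (ptF h q) (goodF x)) ≤ (h : ℝ) ^ 2 * (q : ℝ)⁻¹ := by
  classical
  rw [ordNorm_wt]
  have hle : ∀ i, load (ptF h q) (goodF x) i ≤ ∑ t ∈ (univ : Finset (Fin h)),
      if i ∈ (grp (t, !x t) : Finset (Mach h q)).map (eM h q).toEmbedding
        then ((q : ℝ)⁻¹) ^ (idx (t, !x t) + 1) else 0 := by
    intro i
    rw [load_eq]
    have h1 : (fun j => (eM h q).symm (goodF x (eJ h q j))) = good x := by
      funext j; simp [goodF]
    rw [h1]
    refine le_trans (gload_good_le (by omega) x _) ?_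
    set m := (eM h q).symm i with hm
    split_ifs with hb
    · have h2 : i ∈ (grp (m.1.1, !x m.1.1) : Finset (Mach h q)).map (eM h q).toEmbedding := by
        rw [Finset.mem_map]
        refine ⟨m, ?_, by simp [hm]⟩
        simp only [grp, Finset.mem_filter, Finset.mem_univ, true_and]
        rw [← hb]
      calc ((q : ℝ)⁻¹) ^ (idx m.1 + 1) =
          if i ∈ (grp (m.1.1, !x m.1.1) : Finset (Mach h q)).map (eM h q).toEmbedding
          then ((q : ℝ)⁻¹) ^ (idx (m.1.1, !x m.1.1) + 1) else 0 := by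
            rw [if_pos h2, ← hb]
        _ ≤ _ := by
            refine Finset.single_le_sum (f := fun t : Fin h =>
              if i ∈ (grp (t, !x t) : Finset (Mach h q)).map (eM h q).toEmbedding
              then ((q : ℝ)⁻¹) ^ (idx (t, !x t) + 1) else 0) (fun t _ => ?_) (Finset.mem_univ _)
            split_ifs
            · positivity
            · exact le_rfl
    · refine Finset.sum_nonneg fun t _ => ?_
      split_ifs
      · positivity
      · exact le_rfl
  have hterm : ∀ t : Fin h, ((q : ℝ)⁻¹) ^ idx (t, x t) *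
      top (sz q (t, x t)) (load (ptF h q) (goodF x)) ≤ (h : ℝ) * (q : ℝ)⁻¹ := by
    intro t
    refine le_trans (mul_le_mul_of_nonneg_left (top_le univ _ (sz q (t, x t))
      (fun t' : Fin h => ((q : ℝ)⁻¹) ^ (idx (t', !x t') + 1)) (fun _ _ => by positivity)
      (fun t' => (grp (t', !x t') : Finset (Mach h q)).map (eM h q).toEmbedding) hle)
      (by positivity)) ?_
    rw [Finset.mul_sum]
    calc _ ≤ ∑ t' : Fin h, (q : ℝ)⁻¹ := by
          refine Finset.sum_le_sum fun t' _ => ?_
          rw [card_image_grp]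
          refine pow_bound hq _ _ ?_
          unfold idx
          simp only
          intro hcon
          by_cases htt : t = t'
          · subst htt
            cases hx : x t <;> simp [hx] at hcon
          · have : (t : ℕ) ≠ t' := fun hh => htt (Fin.ext hh)
            have h1 : (x t).toNat ≤ 1 := Bool.toNat_le _
            have h2 : (!x t').toNat ≤ 1 := Bool.toNat_le _
            omega
      _ = _ := by simp
  calc _ ≤ ∑ t : Fin h, (h : ℝ) * (q : ℝ)⁻¹ := Finset.sum_le_sum fun t _ => hterm t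
    _ = _ := by simp; ring

lemma isWeight_wt {h q : ℕ} (hh : 1 ≤ h) (hq : 1 ≤ q) (x : Fin h → Bool) :
    IsWeight (wt q x) := by
  refine ⟨?_, wt_antitone q x, wt_nonneg q x⟩
  intro hcon
  have hq0 : (0 : ℝ) < q := by exact_mod_cast hq
  let t : Fin h := ⟨0, hh⟩
  have hsz : 0 < sz q (t, x t) := by unfold sz; positivity
  have hd : 0 < dd h q := by
    unfold dd
    exact Fintype.card_pos_iff.2 ⟨⟨(t, x t), ⟨0, hsz⟩⟩⟩
  have h0 := congrFun hcon ⟨0, hd⟩
  have : 0 < wt q x ⟨0, hd⟩ := by
    unfold wt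
    refine lt_of_lt_of_le ?_ (Finset.single_le_sum (f := fun t : Fin h =>
      if ((⟨0, hd⟩ : Fin (dd h q)) : ℕ) < sz q (t, x t) then ((q : ℝ)⁻¹) ^ idx (t, x t) else 0)
      (fun t _ => ?_) (Finset.mem_univ t))
    · simp only
      rw [if_pos hsz]; positivity
    · split_ifs
      · positivity
      · exact le_rfl
  rw [h0] at this
  simp at this

/-- The counting lower bound. -/
lemma two_pow_le {h q : ℕ} (hh : 1 ≤ h) (hq : 1 ≤ q) (α : ℝ) (hα : 1 ≤ α)
    (hαq : 2 * (α * (h : ℝ) ^ 2) < q) (X : Finset (Fin (dd h q) → ℝ))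
    (hX : IsPortfolio α (loads (ptF h q)) (X : Set (Fin (dd h q) → ℝ))) :
    2 ^ h ≤ X.card := by
  classical
  have hq0 : (0 : ℝ) < q := by exact_mod_cast hq
  choose y hyX hy using fun x : Fin h → Bool => hX.2 (wt q x) (isWeight_wt hh hq x)
  have hsmall : ∀ x : Fin h → Bool, ordNorm (wt q x) (y x) < 1 / 2 := by
    intro x
    have h1 := hy x (load (ptF h q) (goodF x)) ⟨_, rfl⟩
    have h2 := good_cost hq x
    calc ordNorm (wt q x) (y x) ≤ α * ordNorm (wt q x) (load (ptF h q) (goodF x)) := h1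
      _ ≤ α * ((h : ℝ) ^ 2 * (q : ℝ)⁻¹) := mul_le_mul_of_nonneg_left h2 (by linarith)
      _ < 1 / 2 := by
          rw [← mul_assoc, ← div_eq_mul_inv, div_lt_iff₀ hq0]
          linarith
  have hinj : Function.Injective y := by
    intro x x' hxx
    by_contra hne
    obtain ⟨t, ht⟩ := Function.ne_iff.1 hne
    obtain ⟨s, hs⟩ := hX.1 (hyX x)
    have hpos : ∀ (z : Fin h → Bool), ((q : ℝ)⁻¹) ^ idx (t, z t) * top (sz q (t, z t)) (y x) ≤
        ordNorm (wt q z) (y x) := by
      intro z
      rw [ordNorm_wt]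
      refine Finset.single_le_sum (f := fun t : Fin h =>
        ((q : ℝ)⁻¹) ^ idx (t, z t) * top (sz q (t, z t)) (y x)) (fun t' _ => ?_)
        (Finset.mem_univ t)
      refine mul_nonneg (by positivity) ?_
      unfold top
      refine Finset.sum_nonneg fun k _ => ?_
      split_ifs
      · rw [← hs]; exact load_nonneg s _
      · exact le_rfl
    have h1 := one_le (by omega : 0 < q) s t
    rw [hs] at h1
    have hA := lt_of_le_of_lt (hpos x) (hsmall x)
    have hB := lt_of_le_of_lt (hpos x') (by rw [hxx]; exact hsmall x')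
    rw [Fintype.sum_bool] at h1
    cases hx : x t <;> cases hx' : x' t
    · exact ht (by rw [hx, hx'])
    · rw [hx] at hA; rw [hx'] at hB; linarith
    · rw [hx] at hA; rw [hx'] at hB; linarith
    · exact ht (by rw [hx, hx'])
  calc 2 ^ h = Fintype.card (Fin h → Bool) := by simp
    _ = (univ.image y).card := by
        rw [Finset.card_image_of_injective _ hinj, Finset.card_univ]
    _ ≤ X.card := by
        refine Finset.card_le_card fun z hz => ?_
        obtain ⟨x, -, rfl⟩ := Finset.mem_image.1 hz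
        exact_mod_cast hyX x

lemma dd_eq (h q : ℕ) : dd h q = ∑ g : Fin h × Bool, sz q g := by
  unfold dd
  rw [Fintype.card_sigma]
  simp

lemma dd_le {h q : ℕ} (hhq : 2 * h ≤ q) (hh : 1 ≤ h) : dd h q ≤ q ^ (4 * h) := by
  rw [dd_eq]
  calc ∑ g : Fin h × Bool, sz q g ≤ ∑ g : Fin h × Bool, q ^ (4 * h - 1) := by
        refine Finset.sum_le_sum fun g _ => ?_
        unfold sz
        refine Nat.pow_le_pow_right (by omega) ?_
        have := g.1.2
        have hb : g.2.toNat ≤ 1 := Bool.toNat_le _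
        unfold idx
        omega
    _ = 2 * h * q ^ (4 * h - 1) := by
        rw [Finset.sum_const, Finset.card_univ, Fintype.card_prod, Fintype.card_fin,
          Fintype.card_bool, smul_eq_mul]
        ring
    _ ≤ q * q ^ (4 * h - 1) := Nat.mul_le_mul_right _ hhq
    _ = q ^ (4 * h) := by
        rw [← pow_succ']
        congr 1
        omega

lemma two_le_dd {h q : ℕ} (hh : 1 ≤ h) (hq : 2 ≤ q) : 2 ≤ dd h q := by
  rw [dd_eq]
  have : sz q ((⟨0, hh⟩ : Fin h), false) ≤ ∑ g : Fin h × Bool, sz q g :=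
    Finset.single_le_sum (fun _ _ => Nat.zero_le _) (Finset.mem_univ _)
  refine le_trans ?_ this
  simpa [sz, idx] using hq

lemma one_le_nn {h q : ℕ} (hh : 1 ≤ h) (hq : 1 ≤ q) : 1 ≤ nn h q := by
  unfold nn
  refine Fintype.card_pos_iff.2 ⟨⟨⟨0, hh⟩, (⟨0, ?_⟩, ⟨0, ?_⟩)⟩⟩ <;> (unfold sz; positivity)

/-- **No small portfolios.** For all constants `α ≥ 1`, `C > 0` and `k`, there are processing
times such that every `α`-approximate portfolio for the ordered norms has more than `C (log d)^k`
elements. -/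
theorem result (α : ℝ) (hα : 1 ≤ α) (C : ℝ) (hC : 0 < C) (k : ℕ) :
    ∃ (d n : ℕ) (p : Fin d → Fin n → ℝ), 2 ≤ d ∧ 1 ≤ n ∧ (∀ i j, 0 ≤ p i j) ∧
      ∀ X : Finset (Fin d → ℝ), IsPortfolio α (loads p) (X : Set (Fin d → ℝ)) →
        C * Real.log d ^ k < (X.card : ℝ) := by
  obtain ⟨a, ha⟩ := exists_nat_ge α
  have ha1 : 1 ≤ a := by
    have : (1 : ℝ) ≤ a := le_trans hα ha
    exact_mod_cast this
  -- choose `h`
  obtain ⟨h, hh, hgrow⟩ : ∃ h : ℕ, 1 ≤ h ∧ C * (12 * a * (h : ℝ) ^ 3) ^ k < 2 ^ h := by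
    have hlim := tendsto_pow_const_div_const_pow_of_one_lt (3 * k) (one_lt_two : (1 : ℝ) < 2)
    have hlim2 : Filter.Tendsto (fun n : ℕ => C * (12 * a) ^ k * ((n : ℝ) ^ (3 * k) / 2 ^ n))
        Filter.atTop (nhds 0) := by
      simpa using hlim.const_mul (C * (12 * (a : ℝ)) ^ k)
    have h1 := (hlim2.eventually (gt_mem_nhds (show (0 : ℝ) < 1 by norm_num))).and
      (Filter.eventually_ge_atTop 1)
    obtain ⟨h, h2, h3⟩ := h1.exists
    refine ⟨h, h3, ?_⟩
    rw [← mul_div_assoc, div_lt_one (by positivity)] at h2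
    calc C * (12 * a * (h : ℝ) ^ 3) ^ k = C * (12 * a) ^ k * (h : ℝ) ^ (3 * k) := by
          rw [mul_pow, ← pow_mul]; ring
      _ < 2 ^ h := h2
  set q : ℕ := 2 * a * h ^ 2 + 1 with hqdef
  have hahh : h ≤ a * h ^ 2 := by
    calc h = 1 * (h * 1) := by ring
      _ ≤ a * (h * h) := Nat.mul_le_mul ha1 (Nat.mul_le_mul_left _ hh)
      _ = a * h ^ 2 := by ring
  have hhq : 2 * h ≤ q := by rw [hqdef, mul_assoc]; omega
  have hq2 : 2 ≤ q := by omega
  have hαq : 2 * (α * (h : ℝ) ^ 2) < q := by
    rw [hqdef]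
    push_cast
    have : α * (h : ℝ) ^ 2 ≤ a * (h : ℝ) ^ 2 := mul_le_mul_of_nonneg_right ha (by positivity)
    linarith
  refine ⟨dd h q, nn h q, ptF h q, two_le_dd hh hq2, one_le_nn hh (by omega),
    fun i j => pt_nonneg _ _, fun X hX => ?_⟩
  have hcard := two_pow_le hh (by omega : 1 ≤ q) α hα hαq X hX
  have hlog0 : 0 ≤ Real.log (dd h q) := Real.log_nonneg (by
    have := two_le_dd hh hq2
    have : (2 : ℝ) ≤ dd h q := by exact_mod_cast this
    linarith)
  have hlog : Real.log (dd h q) ≤ 12 * a * (h : ℝ) ^ 3 := by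
    have h1 : (dd h q : ℝ) ≤ (q : ℝ) ^ (4 * h) := by exact_mod_cast dd_le hhq hh
    have h2 : (0 : ℝ) < dd h q := by
      have := two_le_dd hh hq2
      have : (2 : ℝ) ≤ dd h q := by exact_mod_cast this
      linarith
    have hq0 : (0 : ℝ) < q := by exact_mod_cast (by omega : 0 < q)
    have hh1 : (1 : ℝ) ≤ h := by exact_mod_cast hh
    have ha1' : (1 : ℝ) ≤ a := by exact_mod_cast ha1
    calc Real.log (dd h q) ≤ Real.log ((q : ℝ) ^ (4 * h)) := Real.log_le_log h2 h1
      _ = (4 * h : ℕ) * Real.log q := Real.log_pow _ _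
      _ ≤ (4 * h : ℕ) * (q : ℝ) := by
          refine mul_le_mul_of_nonneg_left ?_ (by positivity)
          have := Real.log_le_sub_one_of_pos hq0
          linarith
      _ = 4 * h * (2 * a * (h : ℝ) ^ 2 + 1) := by rw [hqdef]; push_cast; ring
      _ ≤ 4 * h * (2 * a * (h : ℝ) ^ 2 + a * (h : ℝ) ^ 2) := by
          have : (1 : ℝ) ≤ a * (h : ℝ) ^ 2 := by
            have := one_le_pow₀ hh1 (n := 2)
            nlinarith
          gcongr
      _ = 12 * a * (h : ℝ) ^ 3 := by ring
  calc C * Real.log (dd h q) ^ k ≤ C * (12 * a * (h : ℝ) ^ 3) ^ k := by gcongr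
    _ < 2 ^ h := hgrow
    _ ≤ (X.card : ℝ) := by exact_mod_cast hcard

end Pool.Agent.Results.MP_61ce55_lc.NoPolylogPortfolio
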